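import Pool.Agent.H913.LG.Final

/-! MP_6a3a89_al, Q1 (negative answer): a Sobolev norm `p_s` of a `G`-continuous norm `p` need not be
`G`-continuous. The definitions are in `Pool.Agent.H913.SGP.Definitions` and
`Pool.Agent.H913.LGP.Definitions`. -/

open Pool.Agent.H913.SGP Pool.Agent.H913.LGP

namespace Pool.Agent.Results.MP_6a3a89_al.SobolevNormNotContinuous

/-- There are a connected real reductive group `G`, a Harish-Chandra module `V` and a `G`-continuous
norm `p` on `V` such that, for every `Ad(K)`-invariant inner product on `𝔨` (given by an orthonormal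
basis `b`, which defines `Δ_K`), the Sobolev norm `p_2 v = p ((1 + Δ_K) v)` is not `G`-continuous. -/
theorem result : ∃ (n : ℕ) (G : Type) (_ : Group G) (_ : TopologicalSpace G)
    (GR : Subgroup (Matrix.GeneralLinearGroup (Fin n) ℝ))
    (ρ : G →* Matrix.GeneralLinearGroup (Fin n) ℝ), IsTopologicalGroup G ∧ T2Space G ∧
    ConnectedSpace G ∧ IsRealReductive GR ρ ∧
    (∃ (m : ℕ) (b : Fin m → LieAlg GR), IsInvBasis GR ρ b) ∧
    ∃ (V : Type) (_ : AddCommGroup V) (_ : Module ℂ V) (Mo : HCModule GR ρ V) (p : V → ℝ),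
      IsGContinuous Mo p ∧ ∀ (m : ℕ) (b : Fin m → LieAlg GR), IsInvBasis GR ρ b →
        ∃ T : Module.End ℂ V, IsSobolevPow Mo b 2 T ∧ ¬ IsGContinuous Mo (fun v => p (T v)) :=
  Pool.Agent.H913.LG.final_6a3

end Pool.Agent.Results.MP_6a3a89_al.SobolevNormNotContinuous
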